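import Pool.Agent.TK.Glue

namespace Pool.Agent.Results.MP_06e2b3_co.Theta

open Pool.Agent.H78.SM Filter Asymptotics

/-- The order of magnitude of the set-mapping parameter of `K_{n,n}` is `n^2`. -/
theorem result :
    (∃ c : ℝ, 0 < c ∧ ∀ n : ℕ,
      c * (n : ℝ) ^ 2 ≤ (setMapping (completeBipartiteGraph (Fin n) (Fin n)) : ℝ)) ∧
    (∀ n : ℕ, 0 < n →
      HasGoodCopies (completeBipartiteGraph (Fin n) (Fin n))
        (setMapping (completeBipartiteGraph (Fin n) (Fin n))) ∧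
      setMapping (completeBipartiteGraph (Fin n) (Fin n)) ≤ 96 * n ^ 2) ∧
    ((fun n : ℕ => (setMapping (completeBipartiteGraph (Fin n) (Fin n)) : ℝ)) =Θ[atTop]
        (fun n : ℕ => (n : ℝ) ^ 2)) ∧
    ¬ (fun n : ℕ => (setMapping (completeBipartiteGraph (Fin n) (Fin n)) : ℝ)) =O[atTop]
        (fun n : ℕ => (n : ℝ) ^ 2 / Real.log n) :=
  ⟨Pool.Agent.TH.lower_of_hstat (by positivity) Pool.Agent.TK.hstat,
    fun n hn => ⟨hasGoodCopies_setMapping n hn, setMapping_le n hn⟩,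
    Pool.Agent.TK.isTheta_setMapping, not_isBigO⟩

end Pool.Agent.Results.MP_06e2b3_co.Theta
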